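import Pool.Agent.P.MP_056161_an.Domain

set_option autoImplicit false

open Complex Set Filter Topology Metric

namespace Pool.Agent.P.MP_056161_an

lemma le_hh {t : ℝ} (h0 : 0 < t) (h1 : t ≤ 1) : t ≤ hh t := by
  unfold hh
  have hl := Real.log_nonpos h0.le h1
  have hpi := Real.pi_pos
  have hpi4 := Real.pi_lt_four
  have h2 : 1 / 2 ≤ 2 / Real.pi := by
    rw [div_le_div_iff₀ (by norm_num) hpi]; linarith
  have h3 : t / 2 ≤ 2 / Real.pi * t := by nlinarith
  nlinarith

lemma not_holder {ρ δ C α : ℝ} (hρ : 0 < ρ) (hδ : 0 < δ) (hα : 0 < α) (hC : 0 ≤ C) {c : ℂ}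
    (hc : ‖c‖ = 1) {f : ℝ → ℝ}
    (hg : ∀ z ∈ ball (0 : ℂ) ρ, z ∈ frontier DD → (c * z).im = f (c * z).re)
    (hd : ∀ s ∈ Ioo (-δ) δ, DifferentiableAt ℝ f s)
    (hH : ∀ s ∈ Ioo (-δ) δ, |deriv f s - deriv f 0| ≤ C * |s| ^ α) : False := by
  set m := deriv f 0 with hm
  have hf0 : f 0 = 0 := by
    have := hg 0 (mem_ball_self hρ) zero_mem_frontier
    simpa using this.symm
  have htay : ∀ s ∈ Ioo (-δ) δ, |f s - m * s| ≤ C * |s| ^ α * |s| := by
    intro s hs
    have hsub : Icc (-|s|) |s| ⊆ Ioo (-δ) δ := by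
      have : |s| < δ := abs_lt.mpr hs
      intro x hx
      constructor <;> linarith [hx.1, hx.2]
    have := (convex_Icc (-|s|) |s|).norm_image_sub_le_of_norm_hasDerivWithin_le
      (f := fun x => f x - m * x) (f' := fun x => deriv f x - m) (C := C * |s| ^ α)
      (x := 0) (y := s)
      (fun x hx => by
        have h1 := (hd x (hsub hx)).hasDerivAt.sub ((hasDerivAt_id x).const_mul m)
        exact (h1.congr_deriv (by simp)).hasDerivWithinAt)
      (fun x hx => by
        refine le_trans (hH x (hsub hx)) (mul_le_mul_of_nonneg_left ?_ hC)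
        exact Real.rpow_le_rpow (abs_nonneg _) (abs_le.mpr hx) hα.le)
      ⟨by linarith [abs_nonneg s], abs_nonneg s⟩ ⟨neg_abs_le s, le_abs_self s⟩
    simpa [hf0] using this
  set A := c.im - m * c.re with hA
  set B := c.re + m * c.im with hB
  have hAB : A ^ 2 + B ^ 2 = 1 + m ^ 2 := by
    have h1 : c.re ^ 2 + c.im ^ 2 = 1 := by
      have := Complex.sq_norm c
      rw [hc, Complex.normSq_apply] at this
      linarith
    rw [hA, hB]
    linear_combination (1 + m ^ 2) * h1
  have hlin : ∀ z ∈ frontier DD, ∀ r : ℝ, ‖z‖ ≤ r → r < ρ → r < δ →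
      |A * z.re + B * z.im| ≤ C * r ^ (1 + α) := by
    intro z hz r h1 h2 h3
    have h4 := hg z (mem_ball_zero_iff.mpr (by linarith)) hz
    have h5 : |(c * z).re| ≤ r := by
      refine le_trans (Complex.abs_re_le_norm _) ?_
      rw [norm_mul, hc, one_mul]; exact h1
    have h6 := htay (c * z).re (abs_lt.mp (by linarith))
    rw [← h4] at h6
    have h7 : (c * z).im - m * (c * z).re = A * z.re + B * z.im := by
      rw [hA, hB, mul_im, mul_re]; ring
    rw [h7] at h6
    refine le_trans h6 ?_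
    have hr : 0 ≤ r := le_trans (abs_nonneg _) h5
    rw [Real.rpow_add' hr (by linarith), Real.rpow_one, mul_assoc, mul_comm r]
    refine mul_le_mul_of_nonneg_left ?_ hC
    exact mul_le_mul (Real.rpow_le_rpow (abs_nonneg _) h5 hα.le) h5 (abs_nonneg _)
      (Real.rpow_nonneg hr _)
  set q : ℝ → ℝ := fun t => 2 * (2 / Real.pi) * (5 * t ^ (α / (1 + α))
    - Real.log t * t ^ (α / (1 + α))) with hq
  have hβ : 0 < α / (1 + α) := by positivity
  have hq0 : Tendsto q (𝓝[>] 0) (𝓝 0) := by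
    have h1 : Tendsto (fun t : ℝ => t ^ (α / (1 + α))) (𝓝[>] 0) (𝓝 0) := by
      have := (Real.continuousAt_rpow_const 0 (α / (1 + α)) (Or.inr hβ.le)).tendsto
      rw [Real.zero_rpow hβ.ne'] at this
      exact this.mono_left nhdsWithin_le_nhds
    have h2 := ((h1.const_mul 5).sub (tendsto_log_mul_rpow_nhdsGT_zero hβ)).const_mul
      (2 * (2 / Real.pi))
    simpa using h2
  have hF : Tendsto (fun t => C * q t ^ (1 + α)) (𝓝[>] 0) (𝓝 0) := by
    have h1 := (Real.continuousAt_rpow_const 0 (1 + α) (Or.inr (by linarith))).tendsto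
    rw [Real.zero_rpow (by linarith)] at h1
    simpa using (h1.comp hq0).const_mul C
  have hsmall : ∀ᶠ t in 𝓝[>] (0 : ℝ), 2 * hh t < min ρ (min δ 2) ∧ t ≤ 1 := by
    apply Filter.Eventually.filter_mono nhdsWithin_le_nhds
    have h1 : ContinuousAt (fun t => 2 * hh t) 0 := (continuous_const.mul hh_cont).continuousAt
    refine (h1.eventually (gt_mem_nhds ?_)).and (ge_mem_nhds one_pos)
    simp [hh_zero, hρ, hδ]
  have hev : ∀ᶠ t in 𝓝[>] (0 : ℝ), |A| ≤ C * q t ^ (1 + α) ∧ |B| ≤ C * q t ^ (1 + α) := by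
    filter_upwards [self_mem_nhdsWithin, hsmall] with t ht hs
    have ht0 : 0 < t := ht
    have hth := le_hh ht0 hs.2
    have hh0 : 0 < hh t := by linarith
    simp only [lt_min_iff] at hs
    obtain ⟨⟨s1, s2, s3⟩, -⟩ := hs
    have hn : ∀ y : ℝ, |y| = hh t → |A * t + B * y| ≤ C * (2 * hh t) ^ (1 + α) := by
      intro y hy
      have h1 : ‖(⟨t, y⟩ : ℂ)‖ ≤ 2 * hh t := by
        have := Complex.norm_le_abs_re_add_abs_im ⟨t, y⟩
        simp only [abs_of_pos ht0, hy] at this
        linarith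
      exact hlin ⟨t, y⟩ (mem_frontier_of_arc ht0 hy (mem_ball_zero_iff.mpr (by linarith)))
        _ h1 s1 s2
    have e1 := abs_le.mp (hn (hh t) (abs_of_pos hh0))
    have e2 := abs_le.mp (hn (-hh t) (by rw [abs_neg, abs_of_pos hh0]))
    have hsplit : 2 * hh t = t ^ (1 / (1 + α)) * q t := by
      have h1 : t ^ (1 / (1 + α)) * t ^ (α / (1 + α)) = t := by
        rw [← Real.rpow_add ht0, ← add_div, div_self (by linarith), Real.rpow_one]
      simp only [hq, hh]
      linear_combination (-(2 * (2 / Real.pi) * (5 - Real.log t))) * h1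
    have hpw : 0 < t ^ (1 / (1 + α)) := Real.rpow_pos_of_pos ht0 _
    have hqpos : 0 < q t := by
      by_contra hneg
      have := mul_nonpos_of_nonneg_of_nonpos hpw.le (not_lt.mp hneg)
      linarith
    have hpow : (2 * hh t) ^ (1 + α) = t * q t ^ (1 + α) := by
      rw [hsplit, Real.mul_rpow hpw.le hqpos.le, ← Real.rpow_mul ht0.le,
        one_div_mul_cancel (by linarith), Real.rpow_one]
    rw [hpow] at e1 e2
    have hX : 0 ≤ C * q t ^ (1 + α) := mul_nonneg hC (Real.rpow_nonneg hqpos.le _)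
    set X := C * q t ^ (1 + α) with hXdef
    have hCX : C * (t * q t ^ (1 + α)) = X * t := by rw [hXdef]; ring
    rw [hCX] at e1 e2
    constructor
    · have : |A * t| ≤ X * t := abs_le.mpr ⟨by linarith [e1.1, e2.1], by linarith [e1.2, e2.2]⟩
      rw [abs_mul, abs_of_pos ht0] at this
      exact le_of_mul_le_mul_right this ht0
    · have : |B * hh t| ≤ X * t :=
        abs_le.mpr ⟨by linarith [e1.1, e2.2], by linarith [e1.2, e2.1]⟩
      rw [abs_mul, abs_of_pos hh0] at this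
      have h2 : X * t ≤ X * hh t := mul_le_mul_of_nonneg_left hth hX
      exact le_of_mul_le_mul_right (le_trans this h2) hh0
  have hA0 : |A| ≤ 0 := ge_of_tendsto hF (hev.mono fun t ht => ht.1)
  have hB0 : |B| ≤ 0 := ge_of_tendsto hF (hev.mono fun t ht => ht.2)
  rw [abs_nonpos_iff] at hA0 hB0
  rw [hA0, hB0] at hAB
  nlinarith [sq_nonneg m]

lemma closure_DD {p : ℂ} (hp : p ∈ closure DD) :
    0 ≤ p.re ∧ |p.im| ≤ hh p.re ∧ |p.im| ≤ 4 - p.re := by
  have h1 : Continuous fun z : ℂ => |z.im| := continuous_abs.comp Complex.continuous_im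
  have hcl : IsClosed {z : ℂ | 0 ≤ z.re ∧ |z.im| ≤ hh z.re ∧ |z.im| ≤ 4 - z.re} :=
    (isClosed_le continuous_const Complex.continuous_re).inter
      ((isClosed_le h1 (hh_cont.comp Complex.continuous_re)).inter
        (isClosed_le h1 (continuous_const.sub Complex.continuous_re)))
  have hsub : DD ⊆ {z : ℂ | 0 ≤ z.re ∧ |z.im| ≤ hh z.re ∧ |z.im| ≤ 4 - z.re} :=
    fun z hz => ⟨hz.1.le, hz.2.1.le, hz.2.2.le⟩
  exact closure_minimal hsub hcl hp

lemma exists_lip_hh {t : ℝ} (ht : 0 < t) :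
    ∃ (K : NNReal) (g : ℝ → ℝ), LipschitzWith K g ∧ ∀ᶠ s in 𝓝 t, g s = min (hh s) (4 - s) := by
  have h1 : ContDiffAt ℝ 1 hh t := by
    unfold hh
    exact (contDiffAt_const.mul contDiffAt_id).mul
      (contDiffAt_const.sub (Real.contDiffAt_log.mpr ht.ne'))
  obtain ⟨K, s, hs, hK⟩ := h1.exists_lipschitzOnWith
  obtain ⟨g, hg, heq⟩ := hK.extend_real
  have h2 : LipschitzWith 1 (fun s : ℝ => 4 - s) := LipschitzWith.of_dist_le_mul fun a b => by
    simp [dist_eq_norm, abs_sub_comm]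
  refine ⟨max K 1, fun s => min (g s) (4 - s), hg.min h2, ?_⟩
  filter_upwards [hs] with x hx
  rw [heq hx]

lemma lipschitz_graph {p : ℂ} (hp : p ∈ frontier DD) :
    ∃ ρ : ℝ, 0 < ρ ∧ ∃ (θ : ℝ) (f : ℝ → ℝ) (K : NNReal), LipschitzWith K f ∧
      ∀ z ∈ ball p ρ, z ∈ DD ↔ f (exp (θ * I) * z).re < (exp (θ * I) * z).im := by
  suffices h : ∃ (θ : ℝ) (f : ℝ → ℝ) (K : NNReal), LipschitzWith K f ∧
      ∀ᶠ z in 𝓝 p, z ∈ DD ↔ f (exp (θ * I) * z).re < (exp (θ * I) * z).im by
    obtain ⟨θ, f, K, h1, h2⟩ := h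
    obtain ⟨ρ, hρ, h3⟩ := Metric.eventually_nhds_iff_ball.mp h2
    exact ⟨ρ, hρ, θ, f, K, h1, h3⟩
  rw [DD_open.frontier_eq] at hp
  obtain ⟨⟨a, b, c⟩, hn⟩ := And.intro (closure_DD hp.1) hp.2
  have hre := Complex.continuous_re.continuousAt (x := p)
  have him := Complex.continuous_im.continuousAt (x := p)
  rcases a.eq_or_lt with h0 | h0
  · have hp0 : p = 0 := by
      rw [← h0, hh_zero] at b
      apply Complex.ext
      · simp [h0]
      · simpa using b
    subst hp0
    obtain ⟨g, hg, heq⟩ := psi_lipschitzOn.extend_real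
    refine ⟨Real.pi / 2, g, 1, hg, ?_⟩
    filter_upwards [ball_mem_nhds (0 : ℂ) two_pos] with z hz
    have h1 : |z.im| < 2 := lt_of_le_of_lt (Complex.abs_im_le_norm z) (mem_ball_zero_iff.mp hz)
    rw [abs_lt] at h1
    have e : exp (((Real.pi / 2 : ℝ) : ℂ) * I) = I := by
      push_cast; exact Complex.exp_pi_div_two_mul_I
    rw [mem_DD_iff hz, e]
    simp only [mul_re, I_re, zero_mul, I_im, one_mul, zero_sub, mul_im, zero_add]
    rw [← heq ⟨by linarith, by linarith⟩, psi_neg]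
  obtain ⟨K, g, hg, hev⟩ := exists_lip_hh h0
  have hev' := hre.eventually hev
  have hpos := hre.eventually (lt_mem_nhds h0)
  rcases lt_trichotomy p.im 0 with hi | hi | hi
  · refine ⟨0, fun s => -g s, K, hg.neg, ?_⟩
    filter_upwards [hev', hpos, him.eventually (gt_mem_nhds hi)] with z h1 h2 h3
    simp only [ofReal_zero, zero_mul, Complex.exp_zero, one_mul, h1, DD, mem_ofPred_eq,
      abs_of_neg h3, h2, true_and, neg_lt, lt_min_iff]
  · have h4 : p.re = 4 := by
      by_contra hne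
      rw [hi, abs_zero] at c
      refine hn ⟨h0, ?_, ?_⟩
      · rw [hi, abs_zero]; exact hh_pos h0 (by linarith)
      · rw [hi, abs_zero]; exact sub_pos.mpr (lt_of_le_of_ne (by linarith) hne)
    have hl : LipschitzWith 1 (fun s : ℝ => |s| - 4) := LipschitzWith.of_dist_le_mul fun a b => by
      simpa [dist_eq_norm] using abs_abs_sub_abs_le_abs_sub a b
    refine ⟨-(Real.pi / 2), fun s => |s| - 4, 1, hl, ?_⟩
    have h5 : ∀ᶠ z in 𝓝 p, |z.im| < hh z.re := by
      refine ContinuousAt.eventually_lt (continuous_abs.continuousAt.comp him)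
        (hh_cont.continuousAt.comp hre) ?_
      show |p.im| < hh p.re
      rw [hi, abs_zero]; exact hh_pos h0 (by linarith)
    filter_upwards [hpos, h5] with z h2 h3
    have e : exp (((-(Real.pi / 2) : ℝ) : ℂ) * I) = -I := by
      push_cast
      rw [neg_mul, Complex.exp_neg, Complex.exp_pi_div_two_mul_I]
      simp
    rw [e]
    simp only [DD, mem_ofPred_eq, h2, h3, true_and, neg_mul, neg_re, mul_re, I_re, zero_mul, I_im,
      one_mul, zero_sub, neg_neg, neg_im, mul_im, zero_add]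
    constructor <;> intro h <;> linarith
  · have hl : LipschitzWith K (fun s : ℝ => -g (-s)) := by
      have := hg.neg.comp (LipschitzWith.id.neg (f := (id : ℝ → ℝ)))
      rw [mul_one] at this
      exact this
    refine ⟨Real.pi, fun s => -g (-s), K, hl, ?_⟩
    filter_upwards [hev', hpos, him.eventually (lt_mem_nhds hi)] with z h1 h2 h3
    rw [Complex.exp_pi_mul_I]
    simp only [neg_mul, one_mul, neg_re, neg_neg, neg_im, neg_lt_neg_iff, h1, DD, mem_ofPred_eq,
      abs_of_pos h3, h2, true_and, lt_min_iff]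

lemma c1_graph : ∀ z ∈ ball (0 : ℂ) 2, z ∈ frontier DD ↔
    (exp (((Real.pi / 2 : ℝ) : ℂ) * I) * z).im = psi (exp (((Real.pi / 2 : ℝ) : ℂ) * I) * z).re := by
  intro z hz
  have e : exp (((Real.pi / 2 : ℝ) : ℂ) * I) = I := by
    push_cast; exact Complex.exp_pi_div_two_mul_I
  rw [mem_frontier_iff hz, e]
  simp [psi_neg]

end Pool.Agent.P.MP_056161_an
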