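import Pool.Agent.P.MP_056161_an.Lambert

set_option autoImplicit false

open Complex Set Filter Topology Metric

namespace Pool.Agent.P.MP_056161_an

/-- The profile (2/π) t (5 - log t). -/
noncomputable def hh (t : ℝ) : ℝ := 2 / Real.pi * t * (5 - Real.log t)

/-- The domain. -/
def DD : Set ℂ := {z | 0 < z.re ∧ |z.im| < hh z.re ∧ |z.im| < 4 - z.re}

/-- The inverse of the profile. -/
noncomputable def kk (y : ℝ) : ℝ := (EE y).re

/-- The boundary near the origin as a graph over the imaginary axis. -/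
noncomputable def psi (y : ℝ) : ℝ := kk |y|

lemma hh_zero : hh 0 = 0 := by simp [hh]

lemma hh_cont : Continuous hh := by
  have : hh = fun t => 2 / Real.pi * (5 * t - t * Real.log t) := by
    funext t; unfold hh; ring
  rw [this]
  exact continuous_const.mul ((continuous_const.mul continuous_id).sub Real.continuous_mul_log)

lemma hh_hasDerivAt {t : ℝ} (ht : t ≠ 0) :
    HasDerivAt hh (2 / Real.pi * (4 - Real.log t)) t := by
  have h := ((hasDerivAt_id t).const_mul (2 / Real.pi)).mul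
    ((Real.hasDerivAt_log ht).const_sub 5)
  refine h.congr_deriv ?_
  simp only [id]
  field_simp
  ring

lemma log_lt_two {t : ℝ} (h0 : 0 < t) (ht : t ≤ 5) : Real.log t < 2 := by
  rw [Real.log_lt_iff_lt_exp h0]
  have h1 : Real.exp 2 = Real.exp 1 * Real.exp 1 := by rw [← Real.exp_add]; norm_num
  have h2 := Real.exp_one_gt_d9
  nlinarith

lemma hh_strictMono : StrictMonoOn hh (Icc 0 3) := by
  refine strictMonoOn_of_deriv_pos (convex_Icc 0 3) hh_cont.continuousOn ?_
  intro x hx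
  rw [interior_Icc] at hx
  rw [(hh_hasDerivAt hx.1.ne').deriv]
  have := log_lt_two hx.1 (by linarith [hx.2])
  have hpi := Real.pi_pos
  have : 0 < 4 - Real.log x := by linarith
  positivity

lemma hh_pos {t : ℝ} (h0 : 0 < t) (ht : t ≤ 5) : 0 < hh t := by
  unfold hh
  have := log_lt_two h0 ht
  have hpi := Real.pi_pos
  have : 0 < 5 - Real.log t := by linarith
  positivity

lemma hh_concave : ConcaveOn ℝ (Ici 0) hh := by
  have : hh = fun t => (2 / Real.pi) • (5 * t - t * Real.log t) := by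
    funext t; unfold hh; rw [smul_eq_mul]; ring
  rw [this]
  have hpi := Real.pi_pos
  refine ConcaveOn.smul (by positivity) ?_
  have h1 : ConcaveOn ℝ (Ici (0 : ℝ)) (fun t : ℝ => 5 * t) :=
    (concaveOn_id (convex_Ici 0)).smul (c := (5 : ℝ)) (by norm_num)
  exact h1.sub Real.convexOn_mul_log

lemma norm_ofReal_le {y : ℝ} (h0 : 0 ≤ y) (h3 : y ≤ 3) : ‖(y : ℂ)‖ ≤ 3 := by
  rw [Complex.norm_real, Real.norm_eq_abs, abs_of_nonneg h0]; exact h3

lemma ww_im_real {y : ℝ} (h0 : 0 ≤ y) : (ww y).im = 0 := by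
  apply WW_im
  unfold lam
  have hpi := Real.pi_pos
  have : (Real.pi : ℂ) / 2 * y = ((Real.pi / 2 * y : ℝ) : ℂ) := by push_cast; ring
  rw [sub_im, Complex.log_im, this, Complex.arg_ofReal_of_nonneg (by positivity)]
  simp

lemma ww_real {y : ℝ} (h0 : 0 ≤ y) : ww y = ((ww y).re : ℂ) := by
  apply Complex.ext <;> simp [ww_im_real h0]

lemma kk_eq {y : ℝ} (h0 : 0 ≤ y) : kk y = Real.pi / 2 * y / (ww y).re := by
  unfold kk EE
  rw [ww_real h0]
  have : (Real.pi : ℂ) / 2 * y / ((ww y).re : ℂ) = ((Real.pi / 2 * y / (ww y).re : ℝ) : ℂ) := by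
    push_cast; ring
  rw [this, ofReal_re, ofReal_re]

lemma kk_zero : kk 0 = 0 := by simp [kk, EE]

lemma kk_nonneg {y : ℝ} (h0 : 0 ≤ y) (h3 : y ≤ 3) : 0 ≤ kk y := by
  rw [kk_eq h0]
  have := ww_re_gt (norm_ofReal_le h0 h3)
  have hpi := Real.pi_pos
  positivity

lemma kk_le {y : ℝ} (h0 : 0 ≤ y) (h3 : y ≤ 3) : kk y ≤ y := by
  have := EE_norm (norm_ofReal_le h0 h3)
  rw [Complex.norm_real, Real.norm_eq_abs, abs_of_nonneg h0] at this
  exact le_trans (Complex.re_le_norm _) this

lemma hh_kk {y : ℝ} (h0 : 0 ≤ y) (h3 : y ≤ 3) : hh (kk y) = y := by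
  rcases h0.eq_or_lt with h | h
  · rw [← h, kk_zero, hh_zero]
  have hw := ww_re_gt (norm_ofReal_le h0 h3)
  have h1 : kk y = Real.exp (5 - (ww y).re) := by
    unfold kk
    rw [EE_eq_exp (norm_ofReal_le h0 h3) (by exact_mod_cast h.ne'), ww_real h0]
    have : (5 : ℂ) - ((ww y).re : ℂ) = ((5 - (ww y).re : ℝ) : ℂ) := by push_cast; ring
    rw [this, Complex.exp_ofReal_re, ofReal_re]
  have h2 : Real.log (kk y) = 5 - (ww y).re := by rw [h1, Real.log_exp]
  unfold hh
  rw [h2, kk_eq h0]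
  have hpi := Real.pi_pos
  field_simp
  ring

lemma psi_nonneg {y : ℝ} (h : |y| ≤ 3) : 0 ≤ psi y := kk_nonneg (abs_nonneg y) h

lemma psi_le {y : ℝ} (h : |y| ≤ 3) : psi y ≤ |y| := kk_le (abs_nonneg y) h

lemma hh_psi {y : ℝ} (h : |y| ≤ 3) : hh (psi y) = |y| := hh_kk (abs_nonneg y) h

lemma psi_zero : psi 0 = 0 := by simp [psi, kk_zero]

lemma psi_neg (y : ℝ) : psi (-y) = psi y := by simp [psi]

lemma mem_DD_iff {z : ℂ} (hz : z ∈ ball (0 : ℂ) 2) : z ∈ DD ↔ psi z.im < z.re := by
  rw [mem_ball_zero_iff] at hz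
  have h1 : |z.im| < 2 := lt_of_le_of_lt (Complex.abs_im_le_norm z) hz
  have h2 : z.re < 2 := lt_of_le_of_lt (Complex.re_le_norm z) hz
  have hp0 := psi_nonneg (y := z.im) (by linarith)
  have hp1 := psi_le (y := z.im) (by linarith)
  have hp2 := hh_psi (y := z.im) (by linarith)
  constructor
  · rintro ⟨a, b, -⟩
    rw [← hp2] at b
    exact (hh_strictMono.lt_iff_lt ⟨hp0, by linarith⟩ ⟨a.le, by linarith⟩).mp b
  · intro h
    refine ⟨by linarith, ?_, by linarith⟩
    rw [← hp2]
    exact hh_strictMono ⟨hp0, by linarith⟩ ⟨by linarith, by linarith⟩ h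

/-- The derivative of the boundary graph. -/
noncomputable def dd (y : ℝ) : ℝ := (Real.pi / (2 * (ww y - 1)) : ℂ).re

lemma kk_hasDerivAt {y : ℝ} (h0 : 0 < y) (h3 : y ≤ 3) : HasDerivAt kk (dd y) y :=
  (EE_hasDerivAt (z := y) (by simpa using h0) (norm_ofReal_le h0.le h3)).real_of_complex

lemma dd_eq {y : ℝ} (h0 : 0 ≤ y) : dd y = Real.pi / (2 * ((ww y).re - 1)) := by
  unfold dd
  rw [ww_real h0]
  have : (Real.pi : ℂ) / (2 * (((ww y).re : ℂ) - 1))
      = ((Real.pi / (2 * ((ww y).re - 1)) : ℝ) : ℂ) := by push_cast; ring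
  rw [this, ofReal_re, ofReal_re]

lemma dd_nonneg {y : ℝ} (h0 : 0 ≤ y) (h3 : y ≤ 3) : 0 ≤ dd y := by
  rw [dd_eq h0]
  have := ww_re_gt (norm_ofReal_le h0 h3)
  have hpi := Real.pi_pos
  have : 0 < (ww y).re - 1 := by linarith
  positivity

lemma dd_le_one {y : ℝ} (h0 : 0 ≤ y) (h3 : y ≤ 3) : dd y ≤ 1 := by
  rw [dd_eq h0]
  have := ww_re_gt (norm_ofReal_le h0 h3)
  have hpi := Real.pi_lt_four
  rw [div_le_one (by linarith)]
  linarith

lemma dd_continuousAt {y : ℝ} (h0 : 0 < y) (h3 : y ≤ 3) : ContinuousAt dd y := by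
  have h1 : ContinuousAt (fun x : ℝ => ww x) y :=
    ((ww_hasDerivAt (z := y) (by simpa using h0)
      (norm_ofReal_le h0.le h3)).continuousAt).comp Complex.continuous_ofReal.continuousAt
  have h2 : ContinuousAt (fun x : ℝ => (Real.pi : ℂ) / (2 * (ww x - 1))) y :=
    continuousAt_const.div (continuousAt_const.mul (h1.sub continuousAt_const))
      (mul_ne_zero two_ne_zero (ww_ne_one (norm_ofReal_le h0.le h3)))
  exact Complex.continuous_re.continuousAt.comp h2

lemma ww_tendsto : Tendsto (fun y : ℝ => (ww y).re) (𝓝[>] 0) atTop := by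
  have hpi := Real.pi_pos
  have h1 : Tendsto (fun y : ℝ => Real.pi / 2 * y) (𝓝[>] 0) (𝓝[>] 0) := by
    apply tendsto_nhdsWithin_of_tendsto_nhds_of_eventually_within
    · have : Tendsto (fun y : ℝ => Real.pi / 2 * y) (𝓝 0) (𝓝 (Real.pi / 2 * 0)) :=
        (continuous_const.mul continuous_id).tendsto 0
      rw [mul_zero] at this
      exact this.mono_left nhdsWithin_le_nhds
    · filter_upwards [self_mem_nhdsWithin] with y hy
      have : 0 < y := hy
      show 0 < Real.pi / 2 * y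
      positivity
  have h2 := Real.tendsto_log_nhdsGT_zero.comp h1
  have h3 := tendsto_atTop_add_const_left _ 5 (tendsto_neg_atBot_atTop.comp h2)
  refine tendsto_atTop_mono' _ ?_ h3
  filter_upwards [self_mem_nhdsWithin] with y hy
  have hy' : 0 < y := hy
  have := WW_re (lam y)
  rw [lam_re, Complex.norm_real, Real.norm_eq_abs, abs_of_pos hy'] at this
  simp only [Function.comp]
  unfold ww
  linarith

lemma dd_tendsto : Tendsto dd (𝓝[>] 0) (𝓝 0) := by
  have h1 : Tendsto (fun y : ℝ => 2 * ((ww y).re - 1)) (𝓝[>] 0) atTop :=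
    Tendsto.const_mul_atTop (by norm_num) (tendsto_atTop_add_const_right _ (-1) ww_tendsto)
  have h2 := h1.const_div_atTop Real.pi
  refine h2.congr' ?_
  filter_upwards [self_mem_nhdsWithin] with y hy
  exact (dd_eq (le_of_lt hy)).symm

lemma kk_le_dd {y : ℝ} (h0 : 0 ≤ y) (h3 : y ≤ 3) : kk y ≤ dd y * y := by
  rw [kk_eq h0, dd_eq h0]
  have := ww_re_gt (norm_ofReal_le h0 h3)
  have hpi := Real.pi_pos
  rw [div_mul_eq_mul_div Real.pi (2 * ((ww y).re - 1)) y,
    div_le_div_iff₀ (by linarith) (by linarith)]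
  have : 0 ≤ Real.pi * y := by positivity
  nlinarith

/-- The derivative of psi. -/
noncomputable def dpsi (y : ℝ) : ℝ := SignType.sign y * dd |y|

lemma abs_tendsto : Tendsto (fun y : ℝ => |y|) (𝓝[≠] 0) (𝓝[>] 0) := by
  apply tendsto_nhdsWithin_of_tendsto_nhds_of_eventually_within
  · have : Tendsto (fun y : ℝ => |y|) (𝓝 0) (𝓝 |0|) := continuous_abs.tendsto 0
    rw [abs_zero] at this
    exact this.mono_left nhdsWithin_le_nhds
  · filter_upwards [self_mem_nhdsWithin] with y hy
    exact abs_pos.mpr hy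

lemma small_eventually : ∀ᶠ y : ℝ in 𝓝[≠] 0, |y| ≤ 3 := by
  apply Filter.Eventually.filter_mono nhdsWithin_le_nhds
  have : ∀ᶠ y : ℝ in 𝓝 0, |y| < 3 :=
    continuous_abs.continuousAt.eventually (gt_mem_nhds (by norm_num))
  exact this.mono fun y hy => hy.le

lemma psi_hasDerivAt {y : ℝ} (h : |y| ≤ 3) : HasDerivAt psi (dpsi y) y := by
  rcases lt_trichotomy y 0 with hy | hy | hy
  · have h1 : HasDerivAt kk (dd (-y)) (-y) :=
      kk_hasDerivAt (by linarith) (by rwa [abs_of_neg hy] at h)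
    have h2 := h1.comp y (hasDerivAt_neg y)
    have h3 : psi =ᶠ[𝓝 y] kk ∘ Neg.neg := by
      filter_upwards [gt_mem_nhds hy] with x hx
      simp [psi, abs_of_neg hx]
    refine (h2.congr_of_eventuallyEq h3).congr_deriv ?_
    simp [dpsi, sign_neg hy, abs_of_neg hy]
  · subst hy
    rw [hasDerivAt_iff_tendsto_slope_zero]
    simp only [dpsi, sign_zero, SignType.coe_zero, zero_mul, zero_add, psi_zero, sub_zero,
      smul_eq_mul]
    rw [tendsto_zero_iff_abs_tendsto_zero]
    refine squeeze_zero' (Eventually.of_forall fun _ => abs_nonneg _) ?_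
      (dd_tendsto.comp abs_tendsto)
    filter_upwards [self_mem_nhdsWithin, small_eventually] with t ht h3
    have ht' : 0 < |t| := abs_pos.mpr ht
    simp only [Function.comp]
    rw [abs_mul, abs_inv, abs_of_nonneg (psi_nonneg h3), inv_mul_le_iff₀ ht', mul_comm]
    exact kk_le_dd (abs_nonneg t) h3
  · have h1 : HasDerivAt kk (dd y) y := kk_hasDerivAt hy (by rwa [abs_of_pos hy] at h)
    have h3 : psi =ᶠ[𝓝 y] kk := by
      filter_upwards [lt_mem_nhds hy] with x hx
      simp [psi, abs_of_pos hx]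
    refine (h1.congr_of_eventuallyEq h3).congr_deriv ?_
    simp [dpsi, sign_pos hy, abs_of_pos hy]

lemma dpsi_abs_le {y : ℝ} (h : |y| ≤ 3) : |dpsi y| ≤ dd |y| := by
  unfold dpsi
  have h0 := dd_nonneg (abs_nonneg y) h
  rw [abs_mul, abs_of_nonneg h0]
  rcases lt_trichotomy y 0 with hy | hy | hy
  · simp [sign_neg hy]
  · subst hy; simpa using h0
  · simp [sign_pos hy]

lemma dpsi_continuousAt {y : ℝ} (h : |y| ≤ 3) : ContinuousAt dpsi y := by
  rcases lt_trichotomy y 0 with hy | hy | hy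
  · have h1 : ContinuousAt dd (-y) :=
      dd_continuousAt (by linarith) (by rwa [abs_of_neg hy] at h)
    have h2 : ContinuousAt (fun x => -dd (-x)) y := (h1.comp continuous_neg.continuousAt).neg
    refine h2.congr ?_
    filter_upwards [gt_mem_nhds hy] with x hx
    simp [dpsi, sign_neg hx, abs_of_neg hx]
  · subst hy
    rw [← continuousWithinAt_compl_self, ContinuousWithinAt]
    have : dpsi 0 = 0 := by simp [dpsi]
    rw [this, tendsto_zero_iff_abs_tendsto_zero]
    refine squeeze_zero' (Eventually.of_forall fun _ => abs_nonneg _) ?_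
      (dd_tendsto.comp abs_tendsto)
    filter_upwards [small_eventually] with t h3
    exact dpsi_abs_le h3
  · have h1 : ContinuousAt dd y := dd_continuousAt hy (by rwa [abs_of_pos hy] at h)
    refine h1.congr ?_
    filter_upwards [lt_mem_nhds hy] with x hx
    simp [dpsi, sign_pos hx, abs_of_pos hx]

lemma psi_contDiffOn : ContDiffOn ℝ 1 psi (Ioo (-2) 2) := by
  have hab : ∀ y ∈ Ioo (-2 : ℝ) 2, |y| ≤ 3 := fun y hy => by
    rw [abs_le]; constructor <;> linarith [hy.1, hy.2]
  rw [show (1 : WithTop ℕ∞) = 0 + 1 from rfl, contDiffOn_succ_iff_deriv_of_isOpen isOpen_Ioo]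
  refine ⟨fun y hy => (psi_hasDerivAt (hab y hy)).differentiableAt.differentiableWithinAt,
    by simp, ?_⟩
  rw [contDiffOn_zero]
  refine ContinuousOn.congr (f := dpsi)
    (fun y hy => (dpsi_continuousAt (hab y hy)).continuousWithinAt) ?_
  intro y hy
  exact (psi_hasDerivAt (hab y hy)).deriv

lemma psi_lipschitzOn : LipschitzOnWith 1 psi (Icc (-3) 3) := by
  refine (convex_Icc (-3 : ℝ) 3).lipschitzOnWith_of_nnnorm_hasDerivWithin_le (f' := dpsi) ?_ ?_
  · intro y hy
    exact (psi_hasDerivAt (abs_le.mpr hy)).hasDerivWithinAt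
  · intro y hy
    have h := abs_le.mpr hy
    have := le_trans (dpsi_abs_le h) (dd_le_one (abs_nonneg y) h)
    exact_mod_cast this

lemma DD_open : IsOpen DD := by
  have h1 : Continuous fun z : ℂ => |z.im| := continuous_abs.comp Complex.continuous_im
  exact (isOpen_lt continuous_const Complex.continuous_re).inter
    ((isOpen_lt h1 (hh_cont.comp Complex.continuous_re)).inter
      (isOpen_lt h1 (continuous_const.sub Complex.continuous_re)))

lemma DD_convex : Convex ℝ DD := by
  intro a ha b hb s t hs ht hst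
  obtain ⟨a1, a2, a3⟩ := ha
  obtain ⟨b1, b2, b3⟩ := hb
  have hre : (s • a + t • b).re = s * a.re + t * b.re := by simp
  have him : (s • a + t • b).im = s * a.im + t * b.im := by simp
  have habs : |s * a.im + t * b.im| ≤ s * |a.im| + t * |b.im| := by
    refine le_trans (abs_add_le _ _) ?_
    rw [abs_mul, abs_mul, abs_of_nonneg hs, abs_of_nonneg ht]
  have key : ∀ p q p' q' : ℝ, p < p' → q < q' → s * p + t * q < s * p' + t * q' := by
    intro p q p' q' hp hq
    rcases hs.eq_or_lt with h | h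
    · have : t = 1 := by linarith
      rw [← h, this]; linarith
    · nlinarith [mul_le_mul_of_nonneg_left hq.le ht, mul_lt_mul_of_pos_left hp h]
  have hc := hh_concave.2 (mem_Ici.mpr a1.le) (mem_Ici.mpr b1.le) hs ht hst
  simp only [smul_eq_mul] at hc
  refine ⟨?_, ?_, ?_⟩
  · rw [hre]
    have := key 0 0 _ _ a1 b1
    linarith
  · rw [hre, him]
    have := key _ _ _ _ a2 b2
    linarith
  · rw [hre, him]
    have := key _ _ _ _ a3 b3
    nlinarith

lemma one_mem_DD : (1 : ℂ) ∈ DD := by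
  refine ⟨by simp, ?_, by norm_num⟩
  simpa using hh_pos one_pos (by norm_num)

lemma DD_bounded : Bornology.IsBounded DD := by
  refine (isBounded_closedBall (x := (0 : ℂ)) (r := 4)).subset ?_
  rintro z ⟨a, -, c⟩
  rw [mem_closedBall_zero_iff]
  have := Complex.norm_le_abs_re_add_abs_im z
  rw [abs_of_pos a] at this
  linarith

lemma mem_frontier_iff {z : ℂ} (hz : z ∈ ball (0 : ℂ) 2) :
    z ∈ frontier DD ↔ z.re = psi z.im := by
  have hz' := mem_ball_zero_iff.mp hz
  have h1 : |z.im| < 2 := lt_of_le_of_lt (Complex.abs_im_le_norm z) hz'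
  have hc : ContinuousAt (fun w : ℂ => psi w.im) z :=
    ContinuousAt.comp (g := psi) (psi_hasDerivAt (by linarith)).continuousAt
      Complex.continuous_im.continuousAt
  rw [DD_open.frontier_eq, Set.mem_sdiff, mem_DD_iff hz]
  constructor
  · rintro ⟨a, b⟩
    by_contra hne
    have hlt : z.re < psi z.im := lt_of_le_of_ne (not_lt.mp b) hne
    have h2 : ∀ᶠ w in 𝓝 z, w.re < psi w.im :=
      ContinuousAt.eventually_lt Complex.continuous_re.continuousAt hc hlt
    have h3 : ∀ᶠ w in 𝓝 z, w ∈ ball (0 : ℂ) 2 := isOpen_ball.mem_nhds hz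
    obtain ⟨w, ⟨hw1, hw2⟩, hw3⟩ := mem_closure_iff_nhds.mp a _ (h2.and h3)
    rw [mem_DD_iff hw2] at hw3
    linarith
  · intro h
    refine ⟨?_, by rw [h]; exact lt_irrefl _⟩
    have ht : Tendsto (fun e : ℝ => z + e) (𝓝[>] 0) (𝓝 z) := by
      have : Tendsto (fun e : ℝ => z + e) (𝓝 0) (𝓝 (z + (0 : ℝ))) :=
        (continuous_const.add Complex.continuous_ofReal).tendsto 0
      simp only [ofReal_zero, add_zero] at this
      exact this.mono_left nhdsWithin_le_nhds
    refine mem_closure_of_tendsto ht ?_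
    filter_upwards [self_mem_nhdsWithin, ht.eventually (isOpen_ball.mem_nhds hz)] with e he hb
    rw [mem_DD_iff hb]
    have : 0 < e := he
    simp only [add_im, ofReal_im, add_zero, add_re, ofReal_re]
    linarith

lemma zero_mem_frontier : (0 : ℂ) ∈ frontier DD := by
  rw [mem_frontier_iff (by simp)]
  simp [psi_zero]

lemma frontier_cases {z : ℂ} (hz : z ∈ ball (0 : ℂ) 2) (hf : z ∈ frontier DD) :
    z = 0 ∨ (0 < z.re ∧ |z.im| = hh z.re) := by
  have hz' := mem_ball_zero_iff.mp hz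
  have h1 : |z.im| < 2 := lt_of_le_of_lt (Complex.abs_im_le_norm z) hz'
  rw [mem_frontier_iff hz] at hf
  have h2 := hh_psi (y := z.im) (by linarith)
  have h3 := psi_nonneg (y := z.im) (by linarith)
  rw [← hf] at h2 h3
  rcases h3.eq_or_lt with h | h
  · left
    rw [← h, hh_zero] at h2
    apply Complex.ext
    · simp [h]
    · simpa using h2.symm
  · exact Or.inr ⟨h, h2.symm⟩

lemma mem_frontier_of_arc {t y : ℝ} (h0 : 0 < t) (hy : |y| = hh t)
    (hb : (⟨t, y⟩ : ℂ) ∈ ball (0 : ℂ) 2) : (⟨t, y⟩ : ℂ) ∈ frontier DD := by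
  have hz' := mem_ball_zero_iff.mp hb
  have h1 : |y| < 2 := lt_of_le_of_lt (Complex.abs_im_le_norm ⟨t, y⟩) hz'
  have h2 : t < 2 := lt_of_le_of_lt (Complex.re_le_norm ⟨t, y⟩) hz'
  rw [mem_frontier_iff hb]
  have hp0 := psi_nonneg (y := y) (by linarith)
  have hp1 := psi_le (y := y) (by linarith)
  have hp2 := hh_psi (y := y) (by linarith)
  exact hh_strictMono.injOn ⟨h0.le, by linarith⟩ ⟨hp0, by linarith⟩ (by rw [hp2, hy])

end Pool.Agent.P.MP_056161_an
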