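import Mathlib

set_option autoImplicit false

open Complex Set Filter Topology Metric

namespace Pool.Agent.P.MP_056161_an

/-- Projection onto the half plane re ≥ 2. -/
noncomputable def pr (w : ℂ) : ℂ := ⟨max w.re 2, w.im⟩

/-- The logarithm after projecting. -/
noncomputable def LL (w : ℂ) : ℂ := Complex.log (pr w)

lemma pr_re (w : ℂ) : 2 ≤ (pr w).re := le_max_right _ _

lemma pr_of_le {w : ℂ} (h : 2 ≤ w.re) : pr w = w := by
  apply Complex.ext <;> simp [pr, h]

lemma pr_lip (a b : ℂ) : ‖pr a - pr b‖ ≤ ‖a - b‖ := by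
  rw [← sq_le_sq₀ (norm_nonneg _) (norm_nonneg _), Complex.sq_norm, Complex.sq_norm,
    Complex.normSq_apply, Complex.normSq_apply]
  simp only [pr, sub_re, sub_im]
  have h := abs_max_sub_max_le_abs a.re b.re 2
  have h2 := sq_le_sq.mpr h
  nlinarith

lemma slit_of_re {x : ℂ} (hx : 0 < x.re) : x ∈ slitPlane := Or.inl hx

lemma log_lip {a b : ℂ} (ha : 2 ≤ a.re) (hb : 2 ≤ b.re) :
    ‖Complex.log a - Complex.log b‖ ≤ 1 / 2 * ‖a - b‖ := by
  have hs : Convex ℝ {x : ℂ | 2 ≤ x.re} := convex_halfSpace_re_ge 2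
  refine hs.norm_image_sub_le_of_norm_hasDerivWithin_le (f := Complex.log) (f' := fun x => x⁻¹)
    ?_ ?_ hb ha
  · intro x hx
    have hx' : (2 : ℝ) ≤ x.re := hx
    exact (Complex.hasDerivAt_log (slit_of_re (by linarith))).hasDerivWithinAt
  · intro x hx
    have hx' : (2 : ℝ) ≤ x.re := hx
    have : (2 : ℝ) ≤ ‖x‖ := le_trans hx' (Complex.re_le_norm x)
    rw [norm_inv, one_div]
    exact inv_anti₀ (by norm_num) this

lemma LL_lip (a b : ℂ) : ‖LL a - LL b‖ ≤ 1 / 2 * ‖a - b‖ := by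
  have := log_lip (pr_re a) (pr_re b)
  have h2 := pr_lip a b
  unfold LL
  linarith

lemma contracting (l : ℂ) : ContractingWith (1 / 2 : NNReal) (fun w => l + LL w) := by
  refine ⟨by norm_num, LipschitzWith.of_dist_le_mul ?_⟩
  intro a b
  rw [dist_eq_norm, dist_eq_norm]
  have := LL_lip a b
  simpa using this

/-- The solution w of w = l + log w. -/
noncomputable def WW (l : ℂ) : ℂ := ContractingWith.fixedPoint _ (contracting l)

lemma WW_eq (l : ℂ) : WW l = l + LL (WW l) :=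
  (ContractingWith.fixedPoint_isFixedPt (contracting l)).symm

lemma WW_unique {l w : ℂ} (h : w = l + LL w) : w = WW l :=
  ContractingWith.fixedPoint_unique (contracting l) h.symm

lemma WW_lip (a b : ℂ) : ‖WW a - WW b‖ ≤ 2 * ‖a - b‖ := by
  have h1 : WW a - WW b = (a - b) + (LL (WW a) - LL (WW b)) := by
    conv_lhs => rw [WW_eq a, WW_eq b]
    ring
  have h2 := norm_add_le (a - b) (LL (WW a) - LL (WW b))
  rw [← h1] at h2
  have h3 := LL_lip (WW a) (WW b)
  linarith

lemma WW_cont : Continuous WW := by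
  have : LipschitzWith 2 WW := LipschitzWith.of_dist_le_mul (fun a b => by
    rw [dist_eq_norm, dist_eq_norm]; simpa using WW_lip a b)
  exact this.continuous

lemma LL_re_nonneg (w : ℂ) : 0 ≤ (LL w).re := by
  unfold LL
  rw [Complex.log_re]
  apply Real.log_nonneg
  have := le_trans (pr_re w) (Complex.re_le_norm _)
  linarith

lemma WW_re (l : ℂ) : l.re ≤ (WW l).re := by
  have := congrArg Complex.re (WW_eq l)
  rw [add_re] at this
  have h2 := LL_re_nonneg (WW l)
  linarith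

lemma WW_log {l : ℂ} (h : 2 ≤ l.re) : WW l - Complex.log (WW l) = l := by
  have h1 := WW_eq l
  unfold LL at h1
  rw [pr_of_le (le_trans h (WW_re l))] at h1
  linear_combination h1

lemma WW_im {l : ℂ} (h : l.im = 0) : (WW l).im = 0 := by
  have h1 := congrArg Complex.im (WW_eq l)
  rw [add_im, h, zero_add] at h1
  have h2 : (LL ((WW l).re : ℂ)).im = 0 := by
    unfold LL
    rw [Complex.log_im, Complex.arg_eq_zero_iff]
    refine ⟨le_trans (by norm_num) (pr_re _), by simp [pr]⟩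
  have h3 := LL_lip (WW l) ((WW l).re : ℂ)
  have h4 : WW l - ((WW l).re : ℂ) = (WW l).im * I := by
    apply Complex.ext <;> simp
  rw [h4] at h3
  have h5 := Complex.abs_im_le_norm (LL (WW l) - LL ((WW l).re : ℂ))
  rw [sub_im, h2, sub_zero, ← h1] at h5
  simp only [norm_mul, Complex.norm_real, Complex.norm_I, mul_one, Real.norm_eq_abs] at h3
  have : |(WW l).im| ≤ 0 := by linarith
  exact abs_nonpos_iff.mp this

lemma WW_hasDerivAt {l : ℂ} (h : 2 < l.re) :
    HasDerivAt WW (1 - (WW l)⁻¹)⁻¹ l := by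
  have hre : 2 < (WW l).re := lt_of_lt_of_le h (WW_re l)
  have hd : HasDerivAt (fun w => w - Complex.log w) (1 - (WW l)⁻¹) (WW l) :=
    (hasDerivAt_id _).sub (Complex.hasDerivAt_log (slit_of_re (by linarith)))
  refine hd.of_local_left_inverse WW_cont.continuousAt ?_ ?_
  · intro h0
    have h1 : (WW l)⁻¹ = 1 := by linear_combination -h0
    rw [inv_eq_one] at h1
    rw [h1] at hre
    norm_num at hre
  · have : ∀ᶠ y in 𝓝 l, 2 < y.re :=
      (Complex.continuous_re.continuousAt).eventually (lt_mem_nhds h)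
    filter_upwards [this] with y hy
    exact WW_log hy.le

/-- The parameter 5 - log (π z / 2). -/
noncomputable def lam (z : ℂ) : ℂ := 5 - Complex.log (Real.pi / 2 * z)

/-- The inverse of w ↦ (2/π) w exp (5 - w). -/
noncomputable def ww (z : ℂ) : ℂ := WW (lam z)

/-- The function exp (5 - w z) = π z / (2 w z). -/
noncomputable def EE (z : ℂ) : ℂ := Real.pi / 2 * z / ww z

lemma lam_re (z : ℂ) : (lam z).re = 5 - Real.log (Real.pi / 2 * ‖z‖) := by
  unfold lam
  rw [sub_re, Complex.log_re]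
  congr 2
  rw [norm_mul, norm_div, Complex.norm_real, Real.norm_eq_abs, abs_of_pos Real.pi_pos]
  simp

lemma lam_re_gt {z : ℂ} (hz : ‖z‖ ≤ 3) : 3 < (lam z).re := by
  rw [lam_re]
  have hpi := Real.pi_lt_d2
  have hpi0 := Real.pi_pos
  have h0 := norm_nonneg z
  have : Real.log (Real.pi / 2 * ‖z‖) < 2 := by
    rcases h0.eq_or_lt with h | h
    · rw [← h]; simp
    · rw [Real.log_lt_iff_lt_exp (by positivity)]
      have h1 : Real.exp 2 = Real.exp 1 * Real.exp 1 := by rw [← Real.exp_add]; norm_num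
      have h2 := Real.exp_one_gt_d9
      nlinarith
  linarith

lemma ww_re_gt {z : ℂ} (hz : ‖z‖ ≤ 3) : 3 < (ww z).re :=
  lt_of_lt_of_le (lam_re_gt hz) (WW_re _)

lemma ww_norm_gt {z : ℂ} (hz : ‖z‖ ≤ 3) : 3 < ‖ww z‖ :=
  lt_of_lt_of_le (ww_re_gt hz) (Complex.re_le_norm _)

lemma ww_ne {z : ℂ} (hz : ‖z‖ ≤ 3) : ww z ≠ 0 := by
  have := ww_norm_gt hz
  intro h
  rw [h] at this
  norm_num at this

lemma ww_sub_norm_gt {z : ℂ} (hz : ‖z‖ ≤ 3) : 2 < ‖ww z - 1‖ := by
  have := ww_re_gt hz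
  have h2 := Complex.re_le_norm (ww z - 1)
  simp only [sub_re, one_re] at h2
  linarith

lemma ww_ne_one {z : ℂ} (hz : ‖z‖ ≤ 3) : ww z - 1 ≠ 0 := by
  have := ww_sub_norm_gt hz
  intro h
  rw [h] at this
  norm_num at this

lemma EE_norm {z : ℂ} (hz : ‖z‖ ≤ 3) : ‖EE z‖ ≤ ‖z‖ := by
  unfold EE
  have h1 := ww_norm_gt hz
  rw [norm_div, norm_mul, norm_div, Complex.norm_real, Real.norm_eq_abs, abs_of_pos Real.pi_pos,
    div_le_iff₀ (by linarith)]
  have hpi := Real.pi_lt_d2
  have h0 := norm_nonneg z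
  simp only [Complex.norm_ofNat]
  nlinarith

lemma EE_eq_exp {z : ℂ} (hz : ‖z‖ ≤ 3) (h0 : z ≠ 0) : EE z = Complex.exp (5 - ww z) := by
  have h1 := WW_log (l := lam z) (by linarith [lam_re_gt hz])
  have hw := ww_ne hz
  have hpi : (Real.pi : ℂ) ≠ 0 := by exact_mod_cast Real.pi_ne_zero
  have h2 : 5 - ww z = Complex.log (Real.pi / 2 * z) - Complex.log (ww z) := by
    unfold ww
    unfold lam at h1 ⊢
    linear_combination -h1
  rw [h2, Complex.exp_sub, Complex.exp_log (mul_ne_zero (div_ne_zero hpi two_ne_zero) h0),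
    Complex.exp_log hw]
  rfl

lemma lam_hasDerivAt {z : ℂ} (hz : 0 < z.re) : HasDerivAt lam (-z⁻¹) z := by
  have hpi : (Real.pi : ℂ) ≠ 0 := by exact_mod_cast Real.pi_ne_zero
  have hz0 : z ≠ 0 := by
    intro h; rw [h] at hz; simp at hz
  have h1 : HasDerivAt (fun z : ℂ => (Real.pi : ℂ) / 2 * z) (Real.pi / 2) z := by
    simpa using (hasDerivAt_id z).const_mul ((Real.pi : ℂ) / 2)
  have h2 := h1.clog (slit_of_re (by
    have := Real.pi_pos
    simp only [mul_re, div_ofNat_re, ofReal_re, div_ofNat_im, ofReal_im, zero_div, zero_mul,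
      sub_zero]
    positivity))
  have h3 := h2.const_sub 5
  refine h3.congr_deriv ?_
  field_simp

lemma ww_hasDerivAt {z : ℂ} (hz : 0 < z.re) (h3 : ‖z‖ ≤ 3) :
    HasDerivAt ww (-(ww z / ((ww z - 1) * z))) z := by
  have hz0 : z ≠ 0 := by
    intro h; rw [h] at hz; simp at hz
  have h1 := (WW_hasDerivAt (l := lam z) (by linarith [lam_re_gt h3])).comp z (lam_hasDerivAt hz)
  have hw := ww_ne h3
  have hw1 := ww_ne_one h3
  refine h1.congr_deriv ?_
  change (1 - (ww z)⁻¹)⁻¹ * _ = _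
  field_simp

lemma EE_hasDerivAt {z : ℂ} (hz : 0 < z.re) (h3 : ‖z‖ ≤ 3) :
    HasDerivAt EE (Real.pi / (2 * (ww z - 1))) z := by
  have hz0 : z ≠ 0 := by
    intro h; rw [h] at hz; simp at hz
  have hw := ww_ne h3
  have hw1 := ww_ne_one h3
  have h1 : HasDerivAt (fun z : ℂ => (Real.pi : ℂ) / 2 * z) (Real.pi / 2) z := by
    simpa using (hasDerivAt_id z).const_mul ((Real.pi : ℂ) / 2)
  have h2 := h1.div (ww_hasDerivAt hz h3) hw
  refine h2.congr_deriv ?_
  field_simp
  ring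

/-- The holomorphic potential. -/
noncomputable def GG (z : ℂ) : ℂ := EE z ^ 3 * (ww z / 3 - 2 / 9) / Real.pi

lemma GG_hasDerivAt {z : ℂ} (hz : 0 < z.re) (h3 : ‖z‖ ≤ 3) :
    HasDerivAt GG (EE z ^ 2 / 2) z := by
  have hz0 : z ≠ 0 := by
    intro h; rw [h] at hz; simp at hz
  have hpi : (Real.pi : ℂ) ≠ 0 := by exact_mod_cast Real.pi_ne_zero
  have hw := ww_ne h3
  have hw1 := ww_ne_one h3
  have h1 := ((((EE_hasDerivAt hz h3).pow 3).mul
    (((ww_hasDerivAt hz h3).div_const 3).sub_const (2 / 9)))).div_const (Real.pi : ℂ)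
  refine h1.congr_deriv ?_
  simp only [Pi.pow_apply, Nat.cast_ofNat, show 3 - 1 = 2 from rfl]
  unfold EE
  field_simp
  ring

/-- If w has real part at least 2 and argument data fit, then w is the inverse value. -/
lemma ww_of_eq {z w : ℂ} (hw : 2 ≤ w.re)
    (h : Complex.log (Real.pi / 2 * z) = 5 - w + Complex.log w) : ww z = w := by
  symm
  apply WW_unique
  unfold LL lam
  rw [pr_of_le hw, h]
  ring

end Pool.Agent.P.MP_056161_an
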