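import Pool.Agent.P.MP_056161_an.Domain

set_option autoImplicit false

open Complex Set Filter Topology Metric

namespace Pool.Agent.P.MP_056161_an

/-- The analytic formula for the solution inside the domain. -/
noncomputable def UU (z : ℂ) : ℝ := z.re ^ 3 / 6 + (GG z).re

/-- Twice the conjugate gradient of UU. -/
noncomputable def NN (z : ℂ) : ℂ := ((z.re ^ 2 : ℝ) : ℂ) + EE z ^ 2

/-- The real linear form v ↦ re (n v / 2). -/
noncomputable def TT (n : ℂ) : ℂ →L[ℝ] ℝ := reCLM.comp ((n / 2) • (1 : ℂ →L[ℝ] ℂ))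

lemma TT_apply (n v : ℂ) : TT n v = (n / 2 * v).re := by simp [TT]

lemma TT_zero : TT 0 = 0 := by
  ext v; simp [TT_apply]

lemma TT_sub (a b : ℂ) : TT a - TT b = TT (a - b) := by
  ext v
  simp only [sub_apply, TT_apply, ← sub_re]
  congr 1
  ring

lemma TT_norm (n : ℂ) : ‖TT n‖ ≤ ‖n‖ := by
  refine ContinuousLinearMap.opNorm_le_bound _ (norm_nonneg _) fun v => ?_
  rw [TT_apply, Real.norm_eq_abs]
  refine le_trans (Complex.abs_re_le_norm _) ?_
  rw [norm_mul, norm_div]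
  have h1 := norm_nonneg n
  have h2 := norm_nonneg v
  simp only [Complex.norm_ofNat]
  nlinarith

lemma cube_hasFDerivAt (z : ℂ) :
    HasFDerivAt (fun z : ℂ => z.re ^ 3 / 6) ((z.re ^ 2 / 2) • (reCLM : ℂ →L[ℝ] ℝ)) z := by
  have h1 : HasDerivAt (fun t : ℝ => t ^ 3 / 6) (z.re ^ 2 / 2) (reCLM z) := by
    refine ((hasDerivAt_pow 3 (reCLM z)).div_const 6).congr_deriv ?_
    simp
    ring
  exact h1.comp_hasFDerivAt z reCLM.hasFDerivAt

lemma UU_hasFDerivAt {z : ℂ} (hz : 0 < z.re) (h3 : ‖z‖ ≤ 3) :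
    HasFDerivAt UU (TT (NN z)) z := by
  have h1 := cube_hasFDerivAt z
  have h2 := reCLM.hasFDerivAt.comp z (GG_hasDerivAt hz h3).complexToReal_fderiv
  refine (h1.add h2).congr_fderiv ?_
  ext v
  simp only [add_apply, smul_apply, reCLM_apply,
    smul_eq_mul, ContinuousLinearMap.coe_comp, Function.comp_apply,
    one_apply_eq_self, TT_apply, NN]
  rw [add_div, add_mul, add_re]
  congr 1
  have : ((z.re ^ 2 : ℝ) : ℂ) / 2 = ((z.re ^ 2 / 2 : ℝ) : ℂ) := by push_cast; ring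
  rw [this, Complex.re_ofReal_mul]

/-- The convex region where the formula is analytic. -/
def RR : Set ℂ := {z | 0 < z.re ∧ ‖z‖ ≤ 3}

lemma RR_convex : Convex ℝ RR := by
  have : RR = {z : ℂ | 0 < z.re} ∩ closedBall 0 3 := by
    ext z; simp [RR]
  rw [this]
  exact (convex_halfSpace_re_gt 0).inter (convex_closedBall 0 3)

lemma EE_sq_lip {a b : ℂ} (ha : a ∈ RR) (hb : b ∈ RR) :
    ‖EE a ^ 2 - EE b ^ 2‖ ≤ 6 * ‖a - b‖ := by
  refine RR_convex.norm_image_sub_le_of_norm_hasDerivWithin_le (f := fun z => EE z ^ 2)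
    (f' := fun z => 2 * EE z * (Real.pi / (2 * (ww z - 1)))) ?_ ?_ hb ha
  · intro x hx
    refine (((EE_hasDerivAt hx.1 hx.2).pow 2).congr_deriv ?_).hasDerivWithinAt
    simp
  · intro x hx
    have h1 := le_trans (EE_norm hx.2) hx.2
    have h2 := ww_sub_norm_gt hx.2
    have h3 : ‖(Real.pi : ℂ) / (2 * (ww x - 1))‖ ≤ 1 := by
      rw [norm_div, norm_mul, Complex.norm_real, Real.norm_eq_abs, abs_of_pos Real.pi_pos,
        div_le_one (by simp only [Complex.norm_ofNat]; linarith)]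
      have := Real.pi_lt_four
      simp only [Complex.norm_ofNat]
      linarith
    rw [norm_mul, norm_mul]
    simp only [Complex.norm_ofNat]
    have h4 := norm_nonneg (EE x)
    have h5 := norm_nonneg ((Real.pi : ℂ) / (2 * (ww x - 1)))
    nlinarith

lemma NN_lip {a b : ℂ} (ha : a ∈ RR) (hb : b ∈ RR) : ‖NN a - NN b‖ ≤ 12 * ‖a - b‖ := by
  have h1 := EE_sq_lip ha hb
  have h2 : NN a - NN b = ((a.re ^ 2 - b.re ^ 2 : ℝ) : ℂ) + (EE a ^ 2 - EE b ^ 2) := by
    unfold NN; push_cast; ring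
  have h3 : ‖((a.re ^ 2 - b.re ^ 2 : ℝ) : ℂ)‖ ≤ 6 * ‖a - b‖ := by
    rw [Complex.norm_real, Real.norm_eq_abs, sq_sub_sq, abs_mul]
    have h4 : |a.re - b.re| ≤ ‖a - b‖ := by
      rw [← sub_re]; exact Complex.abs_re_le_norm _
    have h5 : |a.re + b.re| ≤ 6 := by
      have := le_trans (Complex.re_le_norm a) ha.2
      have := le_trans (Complex.re_le_norm b) hb.2
      rw [abs_of_pos (by linarith [ha.1, hb.1])]
      linarith
    exact mul_le_mul h5 h4 (abs_nonneg _) (by norm_num)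
  rw [h2]
  refine le_trans (norm_add_le _ _) ?_
  linarith

lemma NN_zero : NN 0 = 0 := by simp [NN, EE]

lemma NN_norm {a : ℂ} (ha : ‖a‖ ≤ 3) : ‖NN a‖ ≤ 12 * ‖a‖ := by
  unfold NN
  refine le_trans (norm_add_le _ _) ?_
  rw [Complex.norm_real, Real.norm_eq_abs, norm_pow, abs_pow]
  have h1 := EE_norm ha
  have h2 := Complex.abs_re_le_norm a
  have h3 := norm_nonneg (EE a)
  have h4 := abs_nonneg a.re
  have h5 := norm_nonneg a
  nlinarith

lemma NN_lip' {a b : ℂ} (ha : a = 0 ∨ a ∈ RR) (hb : b = 0 ∨ b ∈ RR) :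
    ‖NN a - NN b‖ ≤ 12 * ‖a - b‖ := by
  rcases ha with rfl | ha <;> rcases hb with rfl | hb
  · simp
  · rw [NN_zero, zero_sub, zero_sub, norm_neg, norm_neg]; exact NN_norm hb.2
  · rw [NN_zero, sub_zero, sub_zero]; exact NN_norm ha.2
  · exact NN_lip ha hb

lemma ww_of_eq' {z w : ℂ} (hw : 2 ≤ w.re) (hi : |w.im| ≤ Real.pi / 2)
    (h : Real.pi / 2 * z = w * Complex.exp (5 - w)) : ww z = w := by
  apply ww_of_eq hw
  have hw0 : w ≠ 0 := by
    intro h0; rw [h0] at hw; norm_num at hw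
  have harg : |arg w| < Real.pi / 2 := abs_arg_lt_pi_div_two_iff.mpr (Or.inl (by linarith))
  have h1 : w * Complex.exp (5 - w) = Complex.exp (5 - w + Complex.log w) := by
    rw [Complex.exp_add, Complex.exp_log hw0, mul_comm]
  rw [abs_lt] at harg
  rw [abs_le] at hi
  rw [h, h1, Complex.log_exp]
  · simp only [add_im, sub_im, im_ofNat, Complex.log_im]; linarith [harg.1, hi.2]
  · simp only [add_im, sub_im, im_ofNat, Complex.log_im]; linarith [harg.2, hi.1]

/-- On the boundary arcs the formula and its gradient vanish. -/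
lemma arc_vanish {z : ℂ} (h0 : 0 < z.re) (h3 : ‖z‖ ≤ 3) (h : |z.im| = hh z.re) :
    UU z = 0 ∧ NN z = 0 := by
  obtain ⟨t, y⟩ := z
  simp only at h0 h
  have ht3 : t ≤ 3 := le_trans (Complex.re_le_norm ⟨t, y⟩) h3
  have hlog := log_lt_two h0 (by linarith)
  have hpi := Real.pi_pos
  obtain ⟨e, he, hy⟩ : ∃ e : ℝ, (e = 1 ∨ e = -1) ∧ y = e * hh t := by
    rcases abs_choice y with h' | h'
    · exact ⟨1, Or.inl rfl, by linarith⟩
    · exact ⟨-1, Or.inr rfl, by linarith⟩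
  have he2 : e ^ 2 = 1 := by rcases he with rfl | rfl <;> norm_num
  set w : ℂ := ⟨5 - Real.log t, -(e * (Real.pi / 2))⟩ with hw
  have hexp : Complex.exp (5 - w) = (t * e : ℝ) * I := by
    have : (5 : ℂ) - w = (Real.log t : ℝ) + (e * (Real.pi / 2) : ℝ) * I := by
      apply Complex.ext <;> simp [hw]
    rw [this, Complex.exp_add, ← Complex.ofReal_exp, Real.exp_log h0, Complex.exp_mul_I,
      ← Complex.ofReal_cos, ← Complex.ofReal_sin]
    rcases he with rfl | rfl <;> simp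
  have hww : ww ⟨t, y⟩ = w := by
    apply ww_of_eq'
    · simp only [hw]; linarith
    · simp only [hw, abs_neg]
      rcases he with rfl | rfl <;> simp [abs_of_pos (half_pos hpi)]
    · rw [hexp]
      apply Complex.ext
      · simp [hw]
        linear_combination (-(Real.pi / 2 * t)) * he2
      · simp [hw, hy, hh]
        field_simp
  have hz0 : (⟨t, y⟩ : ℂ) ≠ 0 := by
    intro h'
    have := congrArg Complex.re h'
    simp at this
    linarith
  have hE : EE ⟨t, y⟩ = (t * e : ℝ) * I := by rw [EE_eq_exp h3 hz0, hww, hexp]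
  constructor
  · unfold UU GG
    rw [hE, hww]
    have : (((t * e : ℝ) : ℂ) * I) ^ 3 * (w / 3 - 2 / 9) / Real.pi
        = ((t * e) ^ 3 / Real.pi : ℝ) * (-I * (w / 3 - 2 / 9)) := by
      have hI : I ^ 3 = -I := by rw [pow_succ, I_sq]; ring
      rw [mul_pow, hI]
      push_cast
      ring
    rw [this, Complex.re_ofReal_mul]
    simp [hw]
    field_simp
    linear_combination (-(6 * t ^ 3 * (e ^ 2 + 1))) * he2
  · unfold NN
    rw [hE, mul_pow, I_sq]
    have : ((t * e : ℝ) : ℂ) ^ 2 = ((t ^ 2 : ℝ) : ℂ) := by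
      rw [← Complex.ofReal_pow, mul_pow, he2, mul_one]
    rw [this]
    simp

lemma frontier_RR {z : ℂ} (hz : z ∈ ball (0 : ℂ) 2) (hf : z ∈ frontier DD) :
    z = 0 ∨ z ∈ RR := by
  rcases frontier_cases hz hf with h | h
  · exact Or.inl h
  · exact Or.inr ⟨h.1, by linarith [mem_ball_zero_iff.mp hz]⟩

lemma DD_RR {z : ℂ} (hz : z ∈ ball (0 : ℂ) 2) (hf : z ∈ DD) : z ∈ RR :=
  ⟨hf.1, by linarith [mem_ball_zero_iff.mp hz]⟩

lemma frontier_NN {z : ℂ} (hz : z ∈ ball (0 : ℂ) 2) (hf : z ∈ frontier DD) : NN z = 0 := by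
  rcases frontier_cases hz hf with h | h
  · rw [h, NN_zero]
  · exact (arc_vanish h.1 (by linarith [mem_ball_zero_iff.mp hz]) h.2).2

lemma exists_frontier {a b : ℂ} (ha : a ∈ DD) (hb : b ∉ DD) :
    ∃ m ∈ segment ℝ a b, m ∈ frontier DD := by
  by_contra hcon
  push Not at hcon
  have := (convex_segment a b).isPreconnected.subset_of_closure_inter_subset DD_open
    ⟨a, left_mem_segment ℝ a b, ha⟩ (by
      rintro m ⟨h1, h2⟩
      by_contra h3
      exact hcon m h2 (by rw [DD_open.frontier_eq]; exact ⟨h1, h3⟩))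
  exact hb (this (right_mem_segment ℝ a b))

lemma norm_sub_le_of_mem_segment' {a b m : ℂ} (hm : m ∈ segment ℝ a b) : ‖a - m‖ ≤ ‖a - b‖ := by
  have := dist_add_dist_of_mem_segment hm
  rw [dist_eq_norm, dist_eq_norm, dist_eq_norm] at this
  linarith [norm_nonneg (m - b)]

lemma glue_aux {a b : ℂ} (ha : a ∈ ball (0 : ℂ) 2) (hb : b ∈ ball (0 : ℂ) 2)
    (h1 : a ∈ DD) (h2 : b ∉ DD) : ‖NN a‖ ≤ 12 * ‖a - b‖ := by
  obtain ⟨m, hm, hf⟩ := exists_frontier h1 h2
  have hmb : m ∈ ball (0 : ℂ) 2 := (convex_ball 0 2).segment_subset ha hb hm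
  have h3 := NN_lip' (Or.inr (DD_RR ha h1)) (frontier_RR hmb hf)
  rw [frontier_NN hmb hf, sub_zero] at h3
  have := norm_sub_le_of_mem_segment' hm
  linarith

lemma glue {a b : ℂ} (ha : a ∈ ball (0 : ℂ) 2) (hb : b ∈ ball (0 : ℂ) 2) :
    ‖DD.indicator NN a - DD.indicator NN b‖ ≤ 12 * ‖a - b‖ := by
  by_cases h1 : a ∈ DD <;> by_cases h2 : b ∈ DD
  · rw [indicator_of_mem h1, indicator_of_mem h2]
    exact NN_lip (DD_RR ha h1) (DD_RR hb h2)
  · rw [indicator_of_mem h1, indicator_of_notMem h2, sub_zero]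
    exact glue_aux ha hb h1 h2
  · rw [indicator_of_notMem h1, indicator_of_mem h2, zero_sub, norm_neg, norm_sub_rev]
    exact glue_aux hb ha h2 h1
  · rw [indicator_of_notMem h1, indicator_of_notMem h2]
    simp

/-- The solution. -/
noncomputable def uu : ℂ → ℝ := DD.indicator UU

lemma UU_bound {p : ℂ} (hp : ‖p‖ ≤ 3) : |UU p| ≤ 12 * ‖p‖ ^ 2 := by
  have hpi := Real.pi_gt_three
  have h0 := norm_nonneg p
  have h1 : |p.re ^ 3 / 6| ≤ ‖p‖ ^ 3 := by
    rw [abs_div, abs_pow]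
    have := pow_le_pow_left₀ (abs_nonneg _) (Complex.abs_re_le_norm p) 3
    have h2 : 0 ≤ |p.re| ^ 3 := by positivity
    simp only [Nat.abs_ofNat]
    linarith
  have hE := EE_norm hp
  have hE0 := norm_nonneg (EE p)
  have hpiC : (Real.pi : ℂ) ≠ 0 := by exact_mod_cast Real.pi_ne_zero
  have h2 : GG p = EE p ^ 2 * (p / 6 - EE p * (2 / 9 / Real.pi)) := by
    have hw := ww_ne hp
    unfold GG
    have : EE p * ww p = Real.pi / 2 * p := by unfold EE; field_simp
    field_simp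
    linear_combination (6 * 9 * EE p ^ 2) * this
  have h3 : ‖p / 6 - EE p * (2 / 9 / Real.pi)‖ ≤ 2 * ‖p‖ := by
    refine le_trans (norm_sub_le _ _) ?_
    have h4 : ‖(2 / 9 / Real.pi : ℂ)‖ ≤ 1 := by
      rw [norm_div, norm_div, Complex.norm_real, Real.norm_eq_abs, abs_of_pos Real.pi_pos,
        div_le_one Real.pi_pos]
      simp only [Complex.norm_ofNat]
      linarith
    rw [norm_div, norm_mul]
    simp only [Complex.norm_ofNat]
    have := mul_le_mul hE h4 (norm_nonneg _) h0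
    linarith
  have h4 : |(GG p).re| ≤ 2 * ‖p‖ ^ 3 := by
    refine le_trans (Complex.abs_re_le_norm _) ?_
    rw [h2, norm_mul, norm_pow]
    have := mul_le_mul (pow_le_pow_left₀ hE0 hE 2) h3 (norm_nonneg _) (by positivity)
    linarith
  unfold UU
  refine le_trans (abs_add_le _ _) ?_
  have : ‖p‖ ^ 3 ≤ 3 * ‖p‖ ^ 2 := by nlinarith [sq_nonneg ‖p‖]
  nlinarith [sq_nonneg ‖p‖]

lemma uu_bound {z p : ℂ} (hz : z ∈ ball (0 : ℂ) 2) (hf : z ∈ frontier DD)
    (hp : p ∈ ball (0 : ℂ) 2) : |uu p| ≤ 12 * ‖p - z‖ ^ 2 := by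
  unfold uu
  by_cases h1 : p ∈ DD
  swap
  · rw [indicator_of_notMem h1, abs_zero]; positivity
  rw [indicator_of_mem h1]
  have hpR := DD_RR hp h1
  rcases frontier_cases hz hf with h | h
  · rw [h, sub_zero]; exact UU_bound hpR.2
  have hzR : z ∈ RR := ⟨h.1, by linarith [mem_ball_zero_iff.mp hz]⟩
  obtain ⟨hU, hN⟩ := arc_vanish h.1 hzR.2 h.2
  have hseg : segment ℝ z p ⊆ RR := RR_convex.segment_subset hzR hpR
  have := (convex_segment z p).norm_image_sub_le_of_norm_hasFDerivWithin_le (f := UU)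
    (f' := fun x => TT (NN x)) (C := 12 * ‖p - z‖)
    (fun x hx => (UU_hasFDerivAt (hseg hx).1 (hseg hx).2).hasFDerivWithinAt)
    (fun x hx => by
      refine le_trans (TT_norm _) ?_
      have h2 := NN_lip hzR (hseg hx)
      rw [hN, zero_sub, norm_neg] at h2
      have h3 := norm_sub_le_of_mem_segment' hx
      rw [norm_sub_rev z p] at h3
      linarith)
    (left_mem_segment ℝ z p) (right_mem_segment ℝ z p)
  rw [hU, sub_zero, Real.norm_eq_abs] at this
  nlinarith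

lemma uu_eventually_in {z : ℂ} (h : z ∈ DD) : uu =ᶠ[𝓝 z] UU := by
  filter_upwards [DD_open.mem_nhds h] with x hx
  exact indicator_of_mem hx _

lemma uu_out {z : ℂ} (h : z ∉ DD) : uu z = 0 := indicator_of_notMem h _

lemma uu_eventually_out {z : ℂ} (h : z ∉ closure DD) : uu =ᶠ[𝓝 z] fun _ => 0 := by
  filter_upwards [isClosed_closure.isOpen_compl.mem_nhds h] with x hx
  exact uu_out fun hx' => hx (subset_closure hx')

lemma uu_hasFDerivAt {z : ℂ} (hz : z ∈ ball (0 : ℂ) 2) :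
    HasFDerivAt uu (TT (DD.indicator NN z)) z := by
  by_cases h1 : z ∈ DD
  · rw [indicator_of_mem h1]
    exact (UU_hasFDerivAt h1.1 (DD_RR hz h1).2).congr_of_eventuallyEq (uu_eventually_in h1)
  rw [indicator_of_notMem h1, TT_zero]
  by_cases h2 : z ∈ closure DD
  swap
  · exact (hasFDerivAt_const (0 : ℝ) z).congr_of_eventuallyEq (uu_eventually_out h2)
  have hf : z ∈ frontier DD := by rw [DD_open.frontier_eq]; exact ⟨h2, h1⟩
  rw [hasFDerivAt_iff_isLittleO]
  refine Asymptotics.IsBigO.trans_isLittleO ?_ (Asymptotics.isLittleO_pow_sub_sub z one_lt_two)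
  refine Asymptotics.IsBigO.of_bound 12 ?_
  filter_upwards [isOpen_ball.mem_nhds hz] with p hp
  rw [uu_out h1]
  simpa using uu_bound hz hf hp

lemma uu_lipschitz : LipschitzOnWith 12 (fderiv ℝ uu) (ball 0 2) := by
  refine LipschitzOnWith.of_dist_le_mul fun a ha b hb => ?_
  rw [(uu_hasFDerivAt ha).fderiv, (uu_hasFDerivAt hb).fderiv, dist_eq_norm, dist_eq_norm, TT_sub]
  exact le_trans (TT_norm _) (by simpa using glue ha hb)

lemma GG_analyticAt {z : ℂ} (h0 : 0 < z.re) (h3 : ‖z‖ < 3) : AnalyticAt ℂ GG z := by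
  have ho : IsOpen {z : ℂ | 0 < z.re ∧ ‖z‖ < 3} :=
    (isOpen_lt continuous_const Complex.continuous_re).inter
      (isOpen_lt continuous_norm continuous_const)
  refine DifferentiableOn.analyticAt (s := {z : ℂ | 0 < z.re ∧ ‖z‖ < 3}) ?_ (ho.mem_nhds ⟨h0, h3⟩)
  intro x hx
  exact (GG_hasDerivAt hx.1 hx.2.le).differentiableAt.differentiableWithinAt

lemma cube_contDiff : ContDiff ℝ 2 (fun z : ℂ => z.re ^ 3 / 6) :=
  ((reCLM.contDiff).pow 3).div_const 6

lemma cube_laplacian (z : ℂ) :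
    (Laplacian.laplacian (fun z : ℂ => z.re ^ 3 / 6 : ℂ → ℝ) : ℂ → ℝ) z = z.re := by
  rw [InnerProductSpace.laplacian_eq_iteratedFDeriv_complexPlane]
  simp only [iteratedFDeriv_two_apply]
  have h1 : fderiv ℝ (fun z : ℂ => z.re ^ 3 / 6)
      = fun z : ℂ => (z.re ^ 2 / 2) • (reCLM : ℂ →L[ℝ] ℝ) :=
    funext fun z => (cube_hasFDerivAt z).fderiv
  have h2 : HasFDerivAt (fun z : ℂ => z.re ^ 2 / 2) (z.re • (reCLM : ℂ →L[ℝ] ℝ)) z := by
    have h3 : HasDerivAt (fun t : ℝ => t ^ 2 / 2) z.re (reCLM z) := by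
      refine ((hasDerivAt_pow 2 (reCLM z)).div_const 2).congr_deriv ?_
      simp
    exact h3.comp_hasFDerivAt z reCLM.hasFDerivAt
  rw [h1, (h2.smul_const (reCLM : ℂ →L[ℝ] ℝ)).fderiv]
  simp

lemma uu_pde_in {z : ℂ} (hz : z ∈ ball (0 : ℂ) 2) (h : z ∈ DD) :
    ContDiffAt ℝ 2 uu z ∧ Laplacian.laplacian uu z = z.re := by
  have hG := (GG_analyticAt h.1 (by linarith [mem_ball_zero_iff.mp hz])).harmonicAt_re
  have hU : UU = (fun z : ℂ => z.re ^ 3 / 6) + fun z => (GG z).re := rfl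
  constructor
  · refine ContDiffAt.congr_of_eventuallyEq ?_ (uu_eventually_in h)
    rw [hU]
    exact cube_contDiff.contDiffAt.add hG.1
  · rw [(InnerProductSpace.laplacian_congr_nhds (uu_eventually_in h)).eq_of_nhds, hU,
      cube_contDiff.contDiffAt.laplacian_add hG.1, cube_laplacian, hG.2.eq_of_nhds]
    simp

lemma uu_pde_out {z : ℂ} (h : z ∉ closure DD) :
    ContDiffAt ℝ 2 uu z ∧ Laplacian.laplacian uu z = 0 := by
  constructor
  · exact contDiffAt_const.congr_of_eventuallyEq (uu_eventually_out h)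
  · rw [(InnerProductSpace.laplacian_congr_nhds (uu_eventually_out h)).eq_of_nhds]
    simp

lemma uu_pde : ∀ᵐ z ∂(MeasureTheory.volume.restrict (ball (0 : ℂ) 2)),
    ContDiffAt ℝ 2 uu z ∧ Laplacian.laplacian uu z = DD.indicator (fun z => z.re) z := by
  rw [MeasureTheory.ae_restrict_iff' measurableSet_ball]
  have h0 : MeasureTheory.volume (frontier DD) = 0 := DD_convex.addHaar_frontier _
  have h1 : ∀ᵐ z : ℂ, z ∉ frontier DD := MeasureTheory.compl_mem_ae_iff.mpr h0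
  filter_upwards [h1] with z hz hb
  by_cases h : z ∈ DD
  · rw [indicator_of_mem h]; exact uu_pde_in hb h
  · rw [indicator_of_notMem h]
    refine uu_pde_out fun hc => hz ?_
    rw [DD_open.frontier_eq]; exact ⟨hc, h⟩

end Pool.Agent.P.MP_056161_an
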